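import Pool.Agent.H985Z.SC.Spec

/-! Approximation of a resistance form by its traces on finite sets. -/

set_option autoImplicit false

namespace Pool.Agent.H985Z.SC

open MeasureTheory Filter Topology Set
open scoped RealInnerProductSpace

namespace H545

variable {X : Type} [MetricSpace X] [CompactSpace X] {H : Type} [NormedAddCommGroup H]
  [InnerProductSpace ℝ H] [CompleteSpace H] (R : RF X H)

/-- The reproducing kernel at a point. -/
noncomputable def k (x : X) : H :=
  (InnerProductSpace.toDual ℝ H).symm ((ContinuousMap.evalCLM ℝ x).comp R.ι)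

lemma inner_k (x : X) (f : H) : ⟪k R x, f⟫ = R.ι f x := by
  unfold k
  rw [InnerProductSpace.toDual_symm_apply]
  rfl

/-- The span of the kernels over a finite set. -/
noncomputable def U (V : Finset X) : Submodule ℝ H := Submodule.span ℝ (k R '' (V : Set X))

instance (V : Finset X) : FiniteDimensional ℝ (U R V) :=
  FiniteDimensional.span_of_finite ℝ (V.finite_toSet.image _)

lemma k_mem {V : Finset X} {x : X} (hx : x ∈ V) : k R x ∈ U R V :=
  Submodule.subset_span ⟨x, hx, rfl⟩

/-- The orthogonal projection onto that span. -/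
noncomputable def Pr (V : Finset X) : H →L[ℝ] H := (U R V).starProjection

lemma Pr_mem (V : Finset X) (f : H) : Pr R V f ∈ U R V :=
  Submodule.starProjection_apply_mem _ _

lemma Pr_val (V : Finset X) (f : H) {x : X} (hx : x ∈ V) : R.ι (Pr R V f) x = R.ι f x := by
  have h := (U R V).starProjection_inner_eq_zero f (k R x) (k_mem R hx)
  rw [real_inner_comm, inner_sub_right, inner_k, inner_k] at h
  unfold Pr
  linarith

lemma zero_of_vanish {V : Finset X} {u : H} (hu : u ∈ U R V) (h : ∀ x ∈ V, R.ι u x = 0) :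
    u = 0 := by
  have key : ∀ w ∈ U R V, ⟪w, u⟫ = 0 := by
    intro w hw
    induction hw using Submodule.span_induction with
    | mem w hw =>
      obtain ⟨x, hx, rfl⟩ := hw
      rw [inner_k]
      exact h x hx
    | zero => simp
    | add a b _ _ ha hb => rw [inner_add_left, ha, hb, add_zero]
    | smul t a _ ha => rw [real_inner_smul_left, ha, mul_zero]
  exact inner_self_eq_zero.mp (key u hu)

lemma ext_U {V : Finset X} {u v : H} (hu : u ∈ U R V) (hv : v ∈ U R V)
    (h : ∀ x ∈ V, R.ι u x = R.ι v x) : u = v := by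
  have := zero_of_vanish R ((U R V).sub_mem hu hv) (by
    intro x hx
    rw [map_sub, ContinuousMap.sub_apply, h x hx, sub_self])
  exact sub_eq_zero.mp this

omit [CompleteSpace H] in
lemma cutoff (V : Finset X) (x : X) :
    ∃ d : H, R.ι d x = 1 ∧ ∀ y ∈ V, y ≠ x → R.ι d y = 0 := by
  classical
  obtain ⟨f, hf0, hf1, -⟩ := exists_continuous_zero_one_of_isClosed
    (s := ((V.erase x : Finset X) : Set X)) (t := {x})
    (V.erase x).finite_toSet.isClosed isClosed_singleton (by simp)
  obtain ⟨g, hg⟩ := R.dense.exists_dist_lt ((3 : ℝ) • f - 1) (ε := 1 / 2) (by norm_num)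
  have hb : ∀ y, |(3 * f y - 1) - R.ι g y| < 1 / 2 := by
    intro y
    have h1 := ContinuousMap.dist_apply_le_dist (f := (3 : ℝ) • f - 1) (g := R.ι g) y
    rw [Real.dist_eq] at h1
    simp only [ContinuousMap.sub_apply, ContinuousMap.smul_apply, smul_eq_mul,
      ContinuousMap.one_apply] at h1
    linarith
  obtain ⟨d, hd, -⟩ := R.markov g
  refine ⟨d, ?_, ?_⟩
  · have h1 := hb x
    have h2 : f x = 1 := hf1 (mem_singleton x)
    rw [h2, abs_lt] at h1
    rw [hd]
    simp only [ContinuousMap.inf_apply, ContinuousMap.sup_apply, ContinuousMap.zero_apply,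
      ContinuousMap.one_apply]
    apply inf_eq_right.mpr
    exact le_sup_of_le_left (by linarith [h1.1, h1.2])
  · intro y hy hyx
    have h1 := hb y
    have h2 : f y = 0 := hf0 (by simp [hy, hyx])
    rw [h2, abs_lt] at h1
    rw [hd]
    simp only [ContinuousMap.inf_apply, ContinuousMap.sup_apply, ContinuousMap.zero_apply,
      ContinuousMap.one_apply]
    rw [sup_eq_right.mpr (by linarith [h1.1, h1.2])]
    exact inf_eq_left.mpr zero_le_one

/-- The harmonic extension of the indicator of a point. -/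
noncomputable def ps (V : Finset X) (x : X) : H := Pr R V (cutoff R V x).choose

lemma ps_mem (V : Finset X) (x : X) : ps R V x ∈ U R V := Pr_mem R V _

lemma ps_self {V : Finset X} {x : X} (hx : x ∈ V) : R.ι (ps R V x) x = 1 := by
  unfold ps
  rw [Pr_val R V _ hx]
  exact (cutoff R V x).choose_spec.1

lemma ps_ne {V : Finset X} {x y : X} (hy : y ∈ V) (h : y ≠ x) : R.ι (ps R V x) y = 0 := by
  unfold ps
  rw [Pr_val R V _ hy]
  exact (cutoff R V x).choose_spec.2 y hy h

/-- The harmonic extension operator. -/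
noncomputable def P (V : Finset X) : (X → ℝ) →ₗ[ℝ] H :=
  ∑ x ∈ V, (LinearMap.proj x : (X → ℝ) →ₗ[ℝ] ℝ).smulRight (ps R V x)

lemma P_apply (V : Finset X) (φ : X → ℝ) : P R V φ = ∑ x ∈ V, φ x • ps R V x := by
  simp [P, LinearMap.sum_apply]

lemma P_mem (V : Finset X) (φ : X → ℝ) : P R V φ ∈ U R V := by
  rw [P_apply]
  exact Submodule.sum_mem _ fun x _ => Submodule.smul_mem _ _ (ps_mem R V x)

lemma P_val (V : Finset X) (φ : X → ℝ) {x : X} (hx : x ∈ V) : R.ι (P R V φ) x = φ x := by
  rw [P_apply, map_sum, ContinuousMap.sum_apply, Finset.sum_eq_single x]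
  · rw [map_smul, ContinuousMap.smul_apply, ps_self R hx, smul_eq_mul, mul_one]
  · intro y _ hyx
    rw [map_smul, ContinuousMap.smul_apply, ps_ne R hx hyx.symm, smul_zero]
  · intro h
    exact absurd hx h

lemma P_iota (V : Finset X) (f : H) : P R V (R.ι f) = Pr R V f :=
  ext_U R (P_mem R V _) (Pr_mem R V _) fun x hx => by rw [P_val R V _ hx, Pr_val R V _ hx]

lemma Pr_tendsto (f : H) : Tendsto (fun V => Pr R V f) atTop (𝓝 f) := by
  classical
  refine Submodule.starProjection_tendsto_self (fun V : Finset X => U R V) ?_ f ?_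
  · intro V W h
    exact Submodule.span_mono (image_mono h)
  · rw [top_le_iff, Submodule.topologicalClosure_eq_top_iff, Submodule.eq_bot_iff]
    intro u hu
    apply R.inj
    ext x
    have h1 : k R x ∈ ⨆ V : Finset X, U R V :=
      (le_iSup (fun V : Finset X => U R V) {x}) (k_mem R (Finset.mem_singleton_self x))
    have h2 := (Submodule.mem_orthogonal _ _).mp hu _ h1
    rw [inner_k] at h2
    simp [h2]

omit [CompleteSpace H] in
lemma E_symm (f g : H) : R.E f g = R.E g f := by
  unfold RF.E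
  rw [real_inner_comm, mul_comm]

omit [CompleteSpace H] in
lemma E_sum_left (V : Finset X) (φ : X → ℝ) (u : X → H) (g : H) :
    R.E (∑ x ∈ V, φ x • u x) g = ∑ x ∈ V, φ x * R.E (u x) g := by
  unfold RF.E
  rw [sum_inner, map_sum, ContinuousMap.sum_apply, Finset.sum_mul, ← Finset.sum_sub_distrib]
  refine Finset.sum_congr rfl fun x _ => ?_
  rw [real_inner_smul_left, map_smul, ContinuousMap.smul_apply, smul_eq_mul]
  ring

omit [CompleteSpace H] in
lemma E_one (f : H) : R.E R.one f = 0 := by
  unfold RF.E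
  rw [R.inner_one, R.ι_one]
  simp

lemma one_eq : R.one = k R R.o := by
  apply ext_inner_right ℝ
  intro f
  rw [R.inner_one, inner_k]

lemma row_sum {V : Finset X} (ho : R.o ∈ V) (g : H) : ∑ y ∈ V, R.E (ps R V y) g = 0 := by
  have h1 : P R V (fun _ => 1) = R.one := by
    refine ext_U R (P_mem R V _) (one_eq R ▸ k_mem R ho) fun x hx => ?_
    rw [P_val R V _ hx, R.ι_one, ContinuousMap.one_apply]
  have h2 := E_sum_left R V (fun _ => 1) (ps R V) g
  rw [← P_apply, h1, E_one] at h2
  simpa using h2.symm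

lemma E_Pr_le {V : Finset X} (ho : R.o ∈ V) (g : H) : R.E (Pr R V g) (Pr R V g) ≤ R.E g g := by
  unfold RF.E
  rw [Pr_val R V g ho, real_inner_self_eq_norm_sq, real_inner_self_eq_norm_sq]
  have h : ‖Pr R V g‖ ≤ ‖g‖ := Submodule.norm_starProjection_apply_le _ _
  have := pow_le_pow_left₀ (norm_nonneg _) h 2
  linarith

lemma off_diag {V : Finset X} (ho : R.o ∈ V) {x y : X} (hx : x ∈ V) (hy : y ∈ V) (hxy : x ≠ y) :
    R.E (ps R V x) (ps R V y) ≤ 0 := by
  have key : ∀ t : ℝ, 0 < t →
      2 * R.E (ps R V x) (ps R V y) ≤ t * R.E (ps R V y) (ps R V y) := by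
    intro t ht
    obtain ⟨g, hg, hE⟩ := R.markov (ps R V x - t • ps R V y)
    have h1 : Pr R V g = ps R V x := by
      refine ext_U R (Pr_mem R V _) (ps_mem R V _) fun z hz => ?_
      rw [Pr_val R V g hz, hg]
      simp only [ContinuousMap.inf_apply, ContinuousMap.sup_apply, ContinuousMap.zero_apply,
        ContinuousMap.one_apply, map_sub, map_smul, ContinuousMap.sub_apply,
        ContinuousMap.smul_apply, smul_eq_mul]
      by_cases hzx : z = x
      · subst hzx
        rw [ps_self R hz, ps_ne R hz hxy]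
        simp
      · rw [ps_ne R hz hzx]
        by_cases hzy : z = y
        · subst hzy
          rw [ps_self R hz, sup_eq_right.mpr (by linarith)]
          exact inf_eq_left.mpr zero_le_one
        · rw [ps_ne R hz hzy]
          simp
    have h2 := E_Pr_le R ho g
    rw [h1] at h2
    have h3 : R.E g g ≤ R.E (ps R V x - t • ps R V y) (ps R V x - t • ps R V y) := hE
    have h4 : R.E (ps R V x - t • ps R V y) (ps R V x - t • ps R V y) =
        R.E (ps R V x) (ps R V x) - 2 * t * R.E (ps R V x) (ps R V y) +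
          t ^ 2 * R.E (ps R V y) (ps R V y) := by
      unfold RF.E
      simp only [inner_sub_left, inner_sub_right, real_inner_smul_left, real_inner_smul_right,
        map_sub, map_smul, ContinuousMap.sub_apply, ContinuousMap.smul_apply, smul_eq_mul]
      rw [real_inner_comm (ps R V x) (ps R V y)]
      ring
    have h5 : t * (2 * R.E (ps R V x) (ps R V y)) ≤ t * (t * R.E (ps R V y) (ps R V y)) := by
      nlinarith
    exact le_of_mul_le_mul_left h5 ht
  have hlim : Tendsto (fun t : ℝ => t * R.E (ps R V y) (ps R V y)) (𝓝[>] 0) (𝓝 0) := by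
    have : Tendsto (fun t : ℝ => t * R.E (ps R V y) (ps R V y)) (𝓝 0)
        (𝓝 (0 * R.E (ps R V y) (ps R V y))) :=
      (continuous_id.mul continuous_const).tendsto 0
    rw [zero_mul] at this
    exact this.mono_left nhdsWithin_le_nhds
  have := ge_of_tendsto hlim (eventually_nhdsWithin_of_forall fun t ht => key t ht)
  linarith

lemma network {Y : Type} (V : Finset Y) (e : Y → Y → ℝ) (hs : ∀ x y, e x y = e y x)
    (hr : ∀ y, ∑ x ∈ V, e x y = 0) (hn : ∀ x ∈ V, ∀ y ∈ V, x ≠ y → e x y ≤ 0)
    (φ χ : Y → ℝ) :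
    ∑ x ∈ V, φ x * ∑ y ∈ V, χ y * e y x =
      ∑ x ∈ V, ∑ y ∈ V, max 0 (-e x y / 2) * ((φ x - φ y) * (χ x - χ y)) := by
  have h1 : ∑ x ∈ V, ∑ y ∈ V, max 0 (-e x y / 2) * ((φ x - φ y) * (χ x - χ y)) =
      ∑ x ∈ V, ∑ y ∈ V, ((-1 / 2) * (φ x * χ x * e y x) + (1 / 2) * (φ x * (χ y * e y x)) +
        (1 / 2) * (φ y * (χ x * e x y)) + (-1 / 2) * (φ y * χ y * e x y)) := by
    refine Finset.sum_congr rfl fun x hx => Finset.sum_congr rfl fun y hy => ?_
    by_cases hxy : x = y
    · subst hxy
      ring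
    · have := hn x hx y hy hxy
      rw [max_eq_right (by linarith), hs y x]
      ring
  have h2 : ∑ x ∈ V, ∑ y ∈ V, φ x * χ x * e y x = 0 := by
    refine Finset.sum_eq_zero fun x _ => ?_
    rw [← Finset.mul_sum, hr, mul_zero]
  have h3 : ∑ x ∈ V, ∑ y ∈ V, φ y * χ y * e x y = 0 := by
    rw [Finset.sum_comm]
    exact h2
  have h4 : ∑ x ∈ V, ∑ y ∈ V, φ y * (χ x * e x y) = ∑ x ∈ V, ∑ y ∈ V, φ x * (χ y * e y x) :=
    Finset.sum_comm
  have h5 : ∑ x ∈ V, φ x * ∑ y ∈ V, χ y * e y x = ∑ x ∈ V, ∑ y ∈ V, φ x * (χ y * e y x) :=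
    Finset.sum_congr rfl fun x _ => Finset.mul_sum _ _ _
  rw [h1, h5]
  simp only [Finset.sum_add_distrib, ← Finset.mul_sum (a := (-1 / 2 : ℝ)),
    ← Finset.mul_sum (a := (1 / 2 : ℝ))]
  rw [h2, h3, h4]
  ring

end H545

theorem disc : S_DISC := by
  intro X _ _ H _ _ _ R
  refine ⟨H545.P R, fun V x y => max 0 (-R.E (H545.ps R V x) (H545.ps R V y) / 2),
    fun V x y => le_max_left _ _, fun V _ φ x hx => H545.P_val R V φ hx, ?_, ?_⟩
  · intro V ho φ χ
    rw [← H545.network V (fun x y => R.E (H545.ps R V x) (H545.ps R V y))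
      (fun x y => H545.E_symm R _ _) (fun y => H545.row_sum R ho _)
      (fun x hx y hy hxy => H545.off_diag R ho hx hy hxy) φ χ]
    rw [H545.P_apply R V φ, H545.E_sum_left]
    refine Finset.sum_congr rfl fun x _ => ?_
    rw [H545.E_symm, H545.P_apply, H545.E_sum_left]
  · intro f
    simpa only [H545.P_iota] using H545.Pr_tendsto R f

end Pool.Agent.H985Z.SC
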